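import Pool.Agent.CvZ.Dir

/-!
# Package CvZ-Small: the inverse roots have modulus less than `q` (page 7.6)

`γ_i` (`i < b`) are the roots of a monic polynomial with integer coefficients (`p`; used only:
real coefficients,
so `∏ (X - γ_i)` is invariant under complex conjugation). `hN`: `q ^ j - ∑ γ_i ^ j` is a natural
number for all
`j ≥ 1`. `h2`: `∏ (1 - (γ_i / q) ^ 2)` is a positive real number. Then `‖γ_i‖ < q`.

Proof. By `near_re` there is `m ≥ 1` with `Re γ_i ^ m ≥ (3/4) ‖γ_i‖ ^ m` for all `i`, so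
`(3/4) ∑ ‖γ_i‖ ^ m ≤ q ^ m`. If `‖γ_i‖ ≥ q` for two different indices `i`, this gives `(3/2) q ^
m ≤ q ^ m`. So there
is at most one index `i0`. The conjugate of `γ_i0` is a value `γ_i1` (invariance), of the same
modulus, so
`i1 = i0` and `γ_i0` is real, `1 - (γ_i0 / q) ^ 2 ≤ 0`. The product over `i ≠ i0` of `(1 - (γ_i /
q) ^ 2)` is a
positive real number: the multiset of the `γ_i`, `i ≠ i0`, is invariant under conjugation (remove
the real value
`γ_i0` from the invariant multiset), all of modulus `< q`. `P(t) = ∏_{i ≠ i0} (1 - t (γ_i / q) ^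
2)` for `t ∈ [0, 1]` is
real (invariance), not zero (modulus), continuous, `P(0) = 1`, so `P(1) > 0` (intermediate value
theorem;
or: the non-real ones come in pairs). Contradiction with `h2`.
-/

set_option autoImplicit false

namespace Pool.Agent.CvZ

open Polynomial

/-- the roots of a product of linear factors -/
private theorem roots_Small {ι : Type} (S : Finset ι) (γ : ι → ℂ) :
    (∏ i ∈ S, (X - C (γ i))).roots = S.val.map γ := by
  have h := roots_multiset_prod_X_sub_C (S.val.map γ)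
  rw [Multiset.map_map] at h
  exact h

/-- a product of linear factors which is invariant under conjugation has an invariant multiset of
roots -/
private theorem conj_prod_Small {ι : Type} (S : Finset ι) (γ : ι → ℂ)
    (h : (∏ i ∈ S, (X - C (γ i))).map (starRingEnd ℂ) = ∏ i ∈ S, (X - C (γ i)))
    (g : ℂ → ℂ) : ∏ i ∈ S, g (starRingEnd ℂ (γ i)) = ∏ i ∈ S, g (γ i) := by
  have h1 : S.val.map (fun i => starRingEnd ℂ (γ i)) = S.val.map γ := by
    have h2 : (∏ i ∈ S, (X - C (starRingEnd ℂ (γ i)))) = ∏ i ∈ S, (X - C (γ i)) := by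
      rw [← h, Polynomial.map_prod]
      refine Finset.prod_congr rfl fun i _ => ?_
      rw [Polynomial.map_sub, map_X, map_C]
    have h3 := congrArg Polynomial.roots h2
    rw [roots_Small S (fun i => starRingEnd ℂ (γ i)), roots_Small S γ] at h3
    exact h3
  have h4 := congrArg (fun s : Multiset ℂ => (s.map g).prod) h1
  simp only [Multiset.map_map] at h4
  exact h4

/-- if all `w i` have modulus less than one and the products `∏ (1 - t w i)` are real then
`∏ (1 - w i)` is a positive real number -/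
private theorem pos_Small {ι : Type} (S : Finset ι) (w : ι → ℂ) (hw : ∀ i ∈ S, ‖w i‖ < 1)
    (hr : ∀ t : ℝ, (∏ i ∈ S, (1 - (t : ℂ) * w i)).im = 0) :
    ∃ c : ℝ, 0 < c ∧ ∏ i ∈ S, (1 - w i) = (c : ℂ) := by
  obtain ⟨f, hf⟩ : ∃ f : ℝ → ℝ, f = fun t : ℝ => (∏ i ∈ S, (1 - (t : ℂ) * w i)).re :=
    ⟨_, rfl⟩
  have hcont : Continuous f := by
    rw [hf]
    refine Complex.continuous_re.comp (continuous_finsetProd _ fun i _ => ?_)
    exact continuous_const.sub (Complex.continuous_ofReal.mul continuous_const)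
  have hval : ∀ t : ℝ, ∏ i ∈ S, (1 - (t : ℂ) * w i) = (f t : ℂ) := by
    intro t
    rw [hf]
    refine Complex.ext ?_ ?_
    · rw [Complex.ofReal_re]
    · rw [Complex.ofReal_im, hr t]
  have hne : ∀ t ∈ Set.Icc (0 : ℝ) 1, f t ≠ 0 := by
    intro t ht h0
    have h1 := hval t
    rw [h0, Complex.ofReal_zero, Finset.prod_eq_zero_iff] at h1
    obtain ⟨i, hi, h2⟩ := h1
    have h3 : ‖(t : ℂ) * w i‖ = 1 := by
      rw [← sub_eq_zero.1 h2, norm_one]
    rw [norm_mul, Complex.norm_real, Real.norm_eq_abs, abs_of_nonneg ht.1] at h3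
    have h4 : t * ‖w i‖ ≤ 1 * ‖w i‖ := mul_le_mul_of_nonneg_right ht.2 (norm_nonneg _)
    have h5 := hw i hi
    linarith
  have h0 : f 0 = 1 := by
    have h1 := hval 0
    simp only [Complex.ofReal_zero, zero_mul, sub_zero, Finset.prod_const_one] at h1
    exact_mod_cast h1.symm
  have h1 : 0 < f 1 := by
    by_contra hcon
    have h2 : (0 : ℝ) ∈ Set.Icc (f 1) (f 0) := ⟨not_lt.1 hcon, by rw [h0]; exact zero_le_one⟩
    obtain ⟨t, ht, h3⟩ := intermediate_value_Icc' (zero_le_one' ℝ) hcont.continuousOn h2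
    exact hne t ht h3
  refine ⟨f 1, h1, ?_⟩
  rw [← hval 1]
  refine Finset.prod_congr rfl fun i _ => ?_
  rw [Complex.ofReal_one, one_mul]

theorem lt_q {b q : ℕ} (hq : 1 ≤ q) (γ : Fin b → ℂ) {p : ℤ[X]}
    (hp : p.map (Int.castRingHom ℂ) = ∏ i, (X - C (γ i)))
    (hN : ∀ j, 1 ≤ j → ∃ n : ℕ, (n : ℂ) = (q : ℂ) ^ j - ∑ i, γ i ^ j)
    (h2 : ∃ c : ℝ, 0 < c ∧ ∏ i, (1 - (γ i / q) ^ 2) = (c : ℂ)) (i : Fin b) : ‖γ i‖ < q := by
  by_contra hi
  have hi0 : (q : ℝ) ≤ ‖γ i‖ := not_lt.1 hi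
  have hq0 : (0 : ℝ) < q := by exact_mod_cast hq
  have hqc : (q : ℂ) ≠ 0 := by exact_mod_cast (by omega : q ≠ 0)
  -- all other ones are smaller
  have hother : ∀ i1, i1 ≠ i → ‖γ i1‖ < q := by
    intro i1 h1
    by_contra hcon
    have hi1 : (q : ℝ) ≤ ‖γ i1‖ := not_lt.1 hcon
    obtain ⟨m, hm, hre⟩ := near_re γ
    obtain ⟨n, hn⟩ := hN m hm
    have h3 : (n : ℝ) = (q : ℝ) ^ m - ∑ j, (γ j ^ m).re := by
      have h4 := congrArg Complex.re hn
      rw [Complex.sub_re, Complex.re_sum, Complex.natCast_re] at h4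
      rw [h4]
      congr 1
      have h5 : ((q : ℂ) ^ m) = (((q : ℝ) ^ m : ℝ) : ℂ) := by push_cast; rfl
      rw [h5, Complex.ofReal_re]
    have h4 : ∑ j, 3 / 4 * ‖γ j‖ ^ m ≤ (q : ℝ) ^ m := by
      have h5 : ∑ j, 3 / 4 * ‖γ j‖ ^ m ≤ ∑ j, (γ j ^ m).re := Finset.sum_le_sum fun j _ => hre j
      have h6 : (0 : ℝ) ≤ n := Nat.cast_nonneg n
      linarith
    have h5 : ∑ j ∈ ({i, i1} : Finset (Fin b)), 3 / 4 * ‖γ j‖ ^ m ≤
        ∑ j, 3 / 4 * ‖γ j‖ ^ m :=
      Finset.sum_le_sum_of_subset_of_nonneg (Finset.subset_univ _) fun j _ _ => by positivity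
    rw [Finset.sum_pair h1.symm] at h5
    have h6 : (q : ℝ) ^ m ≤ ‖γ i‖ ^ m := pow_le_pow_left₀ hq0.le hi0 m
    have h7 : (q : ℝ) ^ m ≤ ‖γ i1‖ ^ m := pow_le_pow_left₀ hq0.le hi1 m
    have h8 : (0 : ℝ) < (q : ℝ) ^ m := pow_pos hq0 m
    linarith
  -- invariance under conjugation
  have hinv : (∏ j, (X - C (γ j))).map (starRingEnd ℂ) = ∏ j, (X - C (γ j)) := by
    rw [← hp, Polynomial.map_map]
    congr 1
    exact RingHom.ext_int _ _
  have hreal : starRingEnd ℂ (γ i) = γ i := by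
    have h3 : (∏ j, (X - C (γ j))).eval (starRingEnd ℂ (γ i)) = 0 := by
      rw [← hinv, Polynomial.eval_map_apply, eval_prod,
        Finset.prod_eq_zero (Finset.mem_univ i) (by simp), map_zero]
    rw [eval_prod, Finset.prod_eq_zero_iff] at h3
    obtain ⟨i1, -, h4⟩ := h3
    rw [eval_sub, eval_X, eval_C, sub_eq_zero] at h4
    have h5 : ‖γ i1‖ = ‖γ i‖ := by rw [← h4, RCLike.norm_conj]
    have h6 : i1 = i := by
      by_contra h7
      have h8 := hother i1 h7
      rw [h5] at h8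
      exact hi h8
    rw [h4, h6]
  obtain ⟨r, hr⟩ := Complex.conj_eq_iff_real.1 hreal
  have hfac : ∏ j, (X - C (γ j)) =
      (X - C (γ i)) * ∏ j ∈ Finset.univ.erase i, (X - C (γ j)) :=
    (Finset.mul_prod_erase _ _ (Finset.mem_univ i)).symm
  have hinv' : (∏ j ∈ Finset.univ.erase i, (X - C (γ j))).map (starRingEnd ℂ) =
      ∏ j ∈ Finset.univ.erase i, (X - C (γ j)) := by
    rw [hfac, Polynomial.map_mul, Polynomial.map_sub, map_X, map_C, hreal] at hinv
    exact mul_left_cancel₀ (X_sub_C_ne_zero _) hinv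
  obtain ⟨c, hc, hprod⟩ := pos_Small (Finset.univ.erase i) (fun j => (γ j / q) ^ 2) (by
      intro j hj
      rw [norm_pow, norm_div, Complex.norm_natCast]
      refine pow_lt_one₀ (by positivity) ?_ two_ne_zero
      rw [div_lt_one hq0]
      exact hother j (Finset.ne_of_mem_erase hj)) (by
      intro t
      apply Complex.conj_eq_iff_im.1
      rw [map_prod]
      have h3 := conj_prod_Small (Finset.univ.erase i) γ hinv'
        (fun z => 1 - (t : ℂ) * (z / q) ^ 2)
      rw [← h3]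
      refine Finset.prod_congr rfl fun j _ => ?_
      simp only [map_sub, map_one, map_mul, map_pow, map_div₀, Complex.conj_ofReal,
        Complex.conj_natCast])
  obtain ⟨e, he, hprod2⟩ := h2
  rw [← Finset.mul_prod_erase _ _ (Finset.mem_univ i), hprod, hr] at hprod2
  have h3 : (1 - (r / q) ^ 2) * c = e := by exact_mod_cast hprod2
  have h4 : (q : ℝ) ≤ |r| := by
    rw [hr, Complex.norm_real, Real.norm_eq_abs] at hi0
    exact hi0
  have h5 : 1 ≤ (r / q) ^ 2 := by
    rw [div_pow, le_div_iff₀ (by positivity), one_mul, ← sq_abs r]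
    exact pow_le_pow_left₀ hq0.le h4 2
  have h6 : (1 - (r / q) ^ 2) * c ≤ 0 := mul_nonpos_of_nonpos_of_nonneg (by linarith) hc.le
  linarith

end Pool.Agent.CvZ
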