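import Pool.Agent.CvZ.Delta1
import Pool.Agent.CvZ.Small

/-!
# Package CvZ-Main: the number of points is determined by the orders of the class groups (page
7.8)

`q ≥ 2`, `b = n1 + d`, `K = 2 ^ (b + 1)`; for `1 ≤ m ≤ K d` the data `ZD (q ^ m) n1 d s (H m) (j
↦ N (m j))` with
`H m > 0` (`C_m = H_m q ^ m / q ^ (m s)`).

Proof. For `m ≤ K` let `a, δ` be the data over the field with `q ^ m` elements; `δ ≤ d`, so `m δ
≤ K d` and
`delta_one` (with `N (m (δ j))`, base `(q ^ m) ^ δ = q ^ (m δ)`) gives `δ = 1`. `pol` gives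
`γ^(m)`, with
`N (m j) = q ^ (m j) - ∑ (γ^(m)_i) ^ j` and `∏ (1 - γ^(m)_i / q ^ m) = H_m q ^ m / q ^ (m s)` (`ζ
= 1`). Let `γ = γ^(1)`,
`e` its integer coefficients. `∑ (γ^(m)_i) ^ j = ∑ (γ_i ^ m) ^ j` for all `j ≥ 1`, so by `prod_eq`
`∏ (1 - (γ_i / q) ^ m) = H_m q ^ m / q ^ (m s)`. Multiply by `q ^ (m b) q ^ (m s)` and use
`Unq.rs_eq`.
`lt_q` (`K ≥ 2`): `‖γ_i‖ < q`; the roots of `Unq.pol e` are the `γ_i`. Bound for `e i`:
elementary symmetric
function, at most `2 ^ b q ^ b` (`Polynomial.coeff_le_of_roots_le`).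
`N 1 = q - ∑ γ_i = q + e 0` (`Polynomial.prod_X_sub_C_coeff_card_pred`).
-/

set_option autoImplicit false

namespace Pool.Agent.CvZ

open Polynomial

private theorem coeff_Main {n : ℕ} (a : Fin n → ℤ) (i : Fin n) :
    (Unq.pol a).coeff (n - 1 - (i : ℕ)) = a i := by
  have hi := i.2
  unfold Unq.pol
  rw [coeff_add, coeff_X_pow, if_neg (by omega), zero_add, finsetSum_coeff]
  rw [Finset.sum_eq_single i]
  · rw [coeff_C_mul_X_pow, if_pos rfl]
  · intro j _ hj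
    have hj2 := j.2
    rw [coeff_C_mul_X_pow, if_neg]
    intro h
    exact hj (Fin.ext (by omega))
  · intro h
    exact absurd (Finset.mem_univ i) h

/-- the degree map is onto -/
private theorem one_Main {q n1 d s m : ℕ} (hq : 2 ≤ q) (hd : 1 ≤ d) (hm : 1 ≤ m) {K : ℕ}
    (hmK : m ≤ K) {H N : ℕ → ℕ}
    (h : ∀ m, 1 ≤ m → m ≤ K * d →
      0 < H m ∧ ZD (q ^ m) n1 d s (H m) (fun j => N (m * j))) :
    ∃ a, ZDd (q ^ m) n1 d s (H m) (fun j => N (m * j)) a 1 := by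
  have hmd : m ≤ K * d := hmK.trans (Nat.le_mul_of_pos_right _ hd)
  obtain ⟨h0, a, δ, ha⟩ := h m hm hmd
  have hδ1 : 1 ≤ δ := ha.2.1
  have hδd : δ ≤ d := Nat.le_of_dvd hd ha.2.2.1
  have hmδ : m * δ ≤ K * d := Nat.mul_le_mul hmK hδd
  obtain ⟨h0', a', δ', ha'⟩ := h (m * δ) (Nat.mul_pos hm hδ1) hmδ
  have h1 : ZDd ((q ^ m) ^ δ) n1 d s (H (m * δ)) (fun j => (fun j => N (m * j)) (δ * j)) a' δ' := by
    rw [← pow_mul]
    have h2 : (fun j => (fun j => N (m * j)) (δ * j)) = fun j => N (m * δ * j) := by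
      funext j
      simp only [mul_assoc]
    rw [h2]
    exact ha'
  have hQ : 2 ≤ q ^ m := hq.trans (Nat.le_self_pow (by omega) q)
  have h3 := delta_one hQ hd h0 h0' ha h1
  subst h3
  exact ⟨a, ha⟩

theorem main {q n1 d s : ℕ} (hq : 2 ≤ q) (hd : 1 ≤ d) {H N : ℕ → ℕ}
    (h : ∀ m, 1 ≤ m → m ≤ 2 ^ (n1 + d + 1) * d →
      0 < H m ∧ ZD (q ^ m) n1 d s (H m) (fun j => N (m * j))) :
    ∃ e : Fin (n1 + d) → ℤ,
      (∀ γ : ℂ, ((Unq.pol e).map (Int.castRingHom ℂ)).IsRoot γ → ‖γ‖ < q) ∧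
      (∀ m, 1 ≤ m → m ≤ 2 ^ (n1 + d + 1) →
        (q : ℤ) ^ (m * s) * Unq.rs e q m = H m * (q : ℤ) ^ (m * (n1 + d + 1))) ∧
      (∀ i, (e i).natAbs ≤ 2 ^ (n1 + d) * q ^ (n1 + d)) ∧
      ∀ i : Fin (n1 + d), (i : ℕ) = 0 → (N 1 : ℤ) = q + e i := by
  have hq0 : (q : ℂ) ≠ 0 := Nat.cast_ne_zero.2 (by omega)
  have hK : 2 ≤ 2 ^ (n1 + d + 1) := Nat.le_self_pow (by omega) 2
  have hpow : ∀ m, 1 ≤ q ^ m := fun m => Nat.one_le_pow _ _ (by omega)
  -- the data over the field with `q` elements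
  obtain ⟨a₁, ha₁⟩ := one_Main (K := 2 ^ (n1 + d + 1)) hq hd le_rfl (by omega) h
  obtain ⟨γ, e, he, hN, -⟩ := pol (hpow 1) hd ha₁
  have hN' : ∀ j, 1 ≤ j → (N j : ℂ) = (q : ℂ) ^ j - ∑ i, γ i ^ j := by
    intro j hj
    have h1 := hN j hj
    rw [if_pos (one_dvd j)] at h1
    simpa using h1
  -- the orders of the class groups
  have hprod : ∀ m, 1 ≤ m → m ≤ 2 ^ (n1 + d + 1) →
      ∏ i, (1 - (γ i / q) ^ m) = H m * (q : ℂ) ^ m / ((q : ℂ) ^ m) ^ s := by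
    intro m hm hmK
    obtain ⟨a, ha⟩ := one_Main hq hd hm hmK h
    obtain ⟨γ', e', he', hNm, hv⟩ := pol (hpow m) hd ha
    have h1 := hv 1 (one_pow _)
    rw [one_mul] at h1
    push_cast at h1
    rw [← h1]
    have h2 : ∀ j, 1 ≤ j → ∑ i, γ' i ^ j = ∑ i, (γ i ^ m) ^ j := by
      intro j hj
      have h3 := hNm j hj
      have h4 := hN' (m * j) (Nat.mul_pos hm hj)
      rw [if_pos (one_dvd j)] at h3
      simp only [Nat.cast_one, one_mul, Nat.cast_pow] at h3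
      have h5 : ∑ i, γ i ^ (m * j) = ∑ i, (γ i ^ m) ^ j :=
        Finset.sum_congr rfl fun i _ => pow_mul _ _ _
      rw [h3, pow_mul, h5] at h4
      exact sub_right_injective h4
    have h6 := prod_eq γ' (fun i => γ i ^ m) h2 fun x => 1 - x / (q : ℂ) ^ m
    rw [h6]
    exact Finset.prod_congr rfl fun i _ => by rw [div_pow]
  -- the inverse roots
  have hlt : ∀ i, ‖γ i‖ < q := by
    refine lt_q (by omega) γ he (fun j hj => ⟨N j, hN' j hj⟩) ?_
    refine ⟨H 2 * (q : ℝ) ^ 2 / ((q : ℝ) ^ 2) ^ s, ?_, ?_⟩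
    · have h1 := (h 2 (by omega) (hK.trans (Nat.le_mul_of_pos_right _ hd))).1
      have h2 : (0 : ℝ) < q := Nat.cast_pos.2 (by omega)
      have h3 : (0 : ℝ) < H 2 := Nat.cast_pos.2 h1
      positivity
    · rw [hprod 2 (by omega) hK]
      push_cast
      rfl
  have hroot : ∀ z : ℂ, ((Unq.pol e).map (Int.castRingHom ℂ)).IsRoot z → ∃ i, z = γ i := by
    intro z hz
    rw [he, IsRoot.def, eval_prod, Finset.prod_eq_zero_iff] at hz
    obtain ⟨i, -, hi⟩ := hz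
    rw [eval_sub, eval_X, eval_C] at hi
    exact ⟨i, sub_eq_zero.1 hi⟩
  have hcoef : ∀ i : Fin (n1 + d), ((Unq.pol e).map (Int.castRingHom ℂ)).coeff
      (n1 + d - 1 - (i : ℕ)) = ((e i : ℤ) : ℂ) := by
    intro i
    rw [coeff_map, coeff_Main]
    rfl
  refine ⟨e, fun z hz => ?_, fun m hm hmK => ?_, fun i => ?_, fun i hi => ?_⟩
  · obtain ⟨i, rfl⟩ := hroot z hz
    exact hlt i
  · have h1 := Unq.rs_eq e (q : ℤ) m γ he
    have h2 := hprod m hm hmK
    have h3 : ∏ i, (((q : ℤ) : ℂ) ^ m - γ i ^ m) =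
        ((q : ℂ) ^ m) ^ (n1 + d) * ∏ i, (1 - (γ i / q) ^ m) := by
      have h4 : ∀ i, (((q : ℤ) : ℂ) ^ m - γ i ^ m) = (q : ℂ) ^ m * (1 - (γ i / q) ^ m) := by
        intro i
        rw [div_pow, mul_sub, mul_one, mul_div_cancel₀ _ (pow_ne_zero _ hq0)]
        push_cast
        rfl
      rw [Finset.prod_congr rfl fun i _ => h4 i, Finset.prod_mul_distrib, Finset.prod_const,
        Finset.card_univ, Fintype.card_fin]
    rw [h3, h2] at h1
    have h5 : (((q : ℤ) ^ (m * s) * Unq.rs e q m : ℤ) : ℂ) =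
        ((H m * (q : ℤ) ^ (m * (n1 + d + 1)) : ℤ) : ℂ) := by
      push_cast
      rw [h1, pow_mul, pow_mul, pow_succ]
      have h6 : ((q : ℂ) ^ m) ^ s ≠ 0 := pow_ne_zero _ (pow_ne_zero _ hq0)
      field_simp
    exact_mod_cast h5
  · have hm : ((Unq.pol e).map (Int.castRingHom ℂ)).Monic := by
      rw [he]
      exact monic_prod_X_sub_C _ _
    have hdeg : ((Unq.pol e).map (Int.castRingHom ℂ)).natDegree = n1 + d := by
      rw [he, natDegree_prod_of_monic _ _ fun i _ => monic_X_sub_C _]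
      simp
    have h1 := coeff_le_of_roots_le (p := (Unq.pol e).map (Int.castRingHom ℂ))
      (f := RingHom.id ℂ) (B := q) (n1 + d - 1 - (i : ℕ)) hm
      (IsAlgClosed.splits _) (fun z hz => by
        rw [Polynomial.map_id] at hz
        obtain ⟨i, rfl⟩ := hroot z (isRoot_of_mem_roots hz)
        exact (hlt i).le)
    rw [Polynomial.map_id, hcoef, hdeg] at h1
    have h2 : (((e i).natAbs : ℕ) : ℝ) = ‖((e i : ℤ) : ℂ)‖ := by
      rw [Complex.norm_intCast, Nat.cast_natAbs, Int.cast_abs]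
    have h3 : (((e i).natAbs : ℕ) : ℝ) ≤ ((2 ^ (n1 + d) * q ^ (n1 + d) : ℕ) : ℝ) := by
      rw [h2]
      refine h1.trans ?_
      push_cast
      rw [mul_comm]
      refine mul_le_mul ?_ ?_ (by positivity) (by positivity)
      · exact_mod_cast Nat.choose_le_two_pow _ _
      · exact pow_le_pow_right₀ (by exact_mod_cast (by omega : 1 ≤ q)) (Nat.sub_le _ _)
    exact_mod_cast h3
  · have h1 := prod_X_sub_C_coeff_card_pred (Finset.univ : Finset (Fin (n1 + d))) γ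
      (by rw [Finset.card_univ, Fintype.card_fin]; omega)
    rw [Finset.card_univ, Fintype.card_fin, ← he] at h1
    have h2 := hcoef i
    rw [hi, Nat.sub_zero, h1] at h2
    have h3 := hN' 1 le_rfl
    simp only [pow_one] at h3
    have h4 : ((N 1 : ℤ) : ℂ) = ((q + e i : ℤ) : ℂ) := by
      push_cast
      rw [h3, ← h2]
      ring
    exact_mod_cast h4

end Pool.Agent.CvZ
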