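import Mathlib

/-!
# ALL CURVES: the numerical data of a curve (definitions)

Page with all proofs: /team-store/allcurves_page.md, section 7.

`ZD Q n1 d s H N`: `N j` is the number of points over the extension of degree `j` of the field
with `Q`
elements; there is a sequence `a` with `n a_n = ∑ N_j a_(n-j)` and `a_n = H Q ^ (n + 1 - s)` if
`δ ∣ n` and `0`
otherwise for `n ≥ n1`, with `δ ∣ d`.

`FR q b γ m = ∏ (1 - (γ_i / q) ^ m)`.
-/

set_option autoImplicit false

namespace Pool.Agent.CvZ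

/-- the numbers of ideals and points of a curve over the field with `Q` elements -/
def ZDd (Q n1 d s H : ℕ) (N : ℕ → ℕ) (a : ℕ → ℕ) (δ : ℕ) : Prop :=
  a 0 = 1 ∧ 1 ≤ δ ∧ δ ∣ d ∧ (∀ n, n * a n = ∑ j ∈ Finset.Icc 1 n, N j * a (n - j)) ∧
    ∀ n, n1 ≤ n → a n * Q ^ s = if δ ∣ n then H * Q ^ (n + 1) else 0

/-- the numbers of ideals and points of a curve over the field with `Q` elements -/
def ZD (Q n1 d s H : ℕ) (N : ℕ → ℕ) : Prop := ∃ a δ, ZDd Q n1 d s H N a δ

/-- the value of the numerator of the zeta function -/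
noncomputable def val {b : ℕ} (γ : Fin b → ℂ) (q m : ℕ) : ℂ := ∏ i, (1 - (γ i / q) ^ m)

end Pool.Agent.CvZ
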