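import Pool.Agent.CvZ.Defs

/-!
# Package CvZ-Mult: power sums determine multisets (page 7.4)

`mult_eq`: two finite families of complex numbers with the same power sums for all `j ≥ 1`: every
`x ≠ 0` has
the same multiplicity in both. Proof: let `S` be the finite set of the nonzero values; `∑_{x ∈ S}
c_x x ^ j = 0` for all
`j ≥ 1`, `c_x` the difference of the multiplicities. Vandermonde
(`Matrix.det_vandermonde_ne_zero_iff`,
`Matrix.eq_zero_of_forall_pow_sum_mul_pow_eq_zero` or similar) for `c_x x`, or linear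
independence of the characters
`j ↦ x ^ j` of the monoid `Multiplicative ℕ` (`linearIndependent_monoidHom`).

`prod_eq`: consequence: if the index types have the same number of elements then
`∏ (1 - (γ i / z)) = ∏ (1 - (γ' i / z))` for every `z`, more generally `∏ φ (γ i) = ∏ φ (γ' i)`
for every `φ`
(the multisets are equal: the multiplicity of `0` agrees as well).
-/

set_option autoImplicit false

namespace Pool.Agent.CvZ

open Polynomial in
private theorem lin_Mult {a b : ℕ} (γ : Fin a → ℂ) (γ' : Fin b → ℂ) (P : ℂ[X])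
    (h : ∀ j, P.coeff j ≠ 0 → ∑ i, γ i ^ j = ∑ i, γ' i ^ j) :
    ∑ i, P.eval (γ i) = ∑ i, P.eval (γ' i) := by
  simp only [eval_eq_sum_range]
  rw [Finset.sum_comm, Finset.sum_comm (s := (Finset.univ : Finset (Fin b)))]
  refine Finset.sum_congr rfl fun j _ => ?_
  rw [← Finset.mul_sum, ← Finset.mul_sum]
  by_cases hj : P.coeff j = 0
  · rw [hj, zero_mul, zero_mul]
  · rw [h j hj]

open Polynomial in
private theorem cnt_Mult {a b : ℕ} (γ : Fin a → ℂ) (γ' : Fin b → ℂ) (x : ℂ) (P : ℂ[X])
    (h1 : ∀ i, γ i ≠ x → P.eval (γ i) = 0) (h2 : ∀ i, γ' i ≠ x → P.eval (γ' i) = 0)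
    (hx : P.eval x ≠ 0) (h : ∑ i, P.eval (γ i) = ∑ i, P.eval (γ' i)) :
    (Finset.univ.filter fun i => γ i = x).card = (Finset.univ.filter fun i => γ' i = x).card := by
  have h3 : ∀ {c : ℕ} (δ : Fin c → ℂ), (∀ i, δ i ≠ x → P.eval (δ i) = 0) →
      ∑ i, P.eval (δ i) = (Finset.univ.filter fun i => δ i = x).card * P.eval x := by
    intro c δ hδ
    rw [← Finset.sum_filter_add_sum_filter_not Finset.univ (fun i => δ i = x)]
    rw [Finset.sum_congr rfl (g := fun _ => P.eval x), Finset.sum_const, nsmul_eq_mul]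
    · rw [Finset.sum_eq_zero, add_zero]
      intro i hi
      exact hδ i (Finset.mem_filter.1 hi).2
    · intro i hi
      rw [(Finset.mem_filter.1 hi).2]
  rw [h3 γ h1, h3 γ' h2] at h
  exact_mod_cast mul_right_cancel₀ hx h

open Polynomial in
private theorem all_Mult {a b : ℕ} (γ : Fin a → ℂ) (γ' : Fin b → ℂ) (x : ℂ) (Q : ℂ[X])
    (hQ : Q.eval x ≠ 0)
    (h : ∀ P : ℂ[X], Q ∣ P → ∑ i, P.eval (γ i) = ∑ i, P.eval (γ' i)) :
    (Finset.univ.filter fun i => γ i = x).card = (Finset.univ.filter fun i => γ' i = x).card := by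
  classical
  let S : Finset ℂ := ((Finset.univ.image γ) ∪ (Finset.univ.image γ')).erase x
  let P : ℂ[X] := Q * ∏ y ∈ S, (X - C y)
  have hz : ∀ y ∈ S, P.eval y = 0 := by
    intro y hy
    simp only [P, eval_mul, eval_prod, eval_sub, eval_X, eval_C]
    rw [Finset.prod_eq_zero hy (sub_self y), mul_zero]
  refine cnt_Mult γ γ' x P (fun i hi => hz _ ?_) (fun i hi => hz _ ?_) ?_
    (h P (Dvd.intro _ rfl))
  · exact Finset.mem_erase.2 ⟨hi, Finset.mem_union_left _ (Finset.mem_image_of_mem _
      (Finset.mem_univ _))⟩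
  · exact Finset.mem_erase.2 ⟨hi, Finset.mem_union_right _ (Finset.mem_image_of_mem _
      (Finset.mem_univ _))⟩
  · simp only [P, eval_mul, eval_prod, eval_sub, eval_X, eval_C]
    refine mul_ne_zero hQ (Finset.prod_ne_zero_iff.2 fun y hy => sub_ne_zero.2 ?_)
    exact fun hxy => (Finset.mem_erase.1 hy).1 hxy.symm

theorem mult_eq {a b : ℕ} (γ : Fin a → ℂ) (γ' : Fin b → ℂ)
    (h : ∀ j, 1 ≤ j → ∑ i, γ i ^ j = ∑ i, γ' i ^ j) (x : ℂ) (hx : x ≠ 0) :
    Nat.card {i // γ i = x} = Nat.card {i // γ' i = x} := by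
  rw [Nat.card_eq_fintype_card, Nat.card_eq_fintype_card, Fintype.card_subtype,
    Fintype.card_subtype]
  refine all_Mult γ γ' x Polynomial.X (by simpa using hx) fun P hP => ?_
  refine lin_Mult γ γ' P fun j hj => h j ?_
  rw [Nat.one_le_iff_ne_zero]
  rintro rfl
  exact hj (Polynomial.X_dvd_iff.1 hP)

theorem prod_eq {b : ℕ} (γ γ' : Fin b → ℂ)
    (h : ∀ j, 1 ≤ j → ∑ i, γ i ^ j = ∑ i, γ' i ^ j) (φ : ℂ → ℂ) :
    ∏ i, φ (γ i) = ∏ i, φ (γ' i) := by
  classical
  have h1 : ∀ x, (Finset.univ.filter fun i => γ i = x).card =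
      (Finset.univ.filter fun i => γ' i = x).card := by
    intro x
    refine all_Mult γ γ' x 1 (by simp) fun P _ => ?_
    refine lin_Mult γ γ' P fun j _ => ?_
    rcases Nat.eq_zero_or_pos j with rfl | hj
    · simp
    · exact h j hj
  have h2 : Multiset.map γ Finset.univ.val = Multiset.map γ' Finset.univ.val := by
    rw [Multiset.ext]
    intro x
    rw [Multiset.count_map, Multiset.count_map]
    have h3 : ∀ δ : Fin b → ℂ, Multiset.card (Multiset.filter (fun a => x = δ a)
        (Finset.univ : Finset (Fin b)).val) = (Finset.univ.filter fun i => δ i = x).card := by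
      intro δ
      rw [Finset.card_def, Finset.filter_val]
      congr 1
      exact Multiset.filter_congr fun i _ => eq_comm
    rw [h3, h3]
    exact h1 x
  have h3 := congrArg (fun m : Multiset ℂ => (m.map φ).prod) h2
  simp only [Multiset.map_map] at h3
  exact h3

end Pool.Agent.CvZ
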