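import Pool.Agent.CvZ.Log
import Pool.Agent.CvZ.Mult

/-!
# Package CvZ-Delta1: the degree map is onto (page 7.4)

The data `a, δ` over the field with `Q` elements and `a', δ'` over its extension of degree `δ`
(`Q ^ δ` elements, `N'_j = N_(δ j)`). `pol` for both: `γ`, `γ'`. For all `j ≥ 1`:
`δ (Q ^ δ) ^ j - ∑ (γ_i ^ δ) ^ j = [δ' ∣ j] δ' (Q ^ δ) ^ j - ∑ γ'_i ^ j`, and
`[δ' ∣ j] δ' x ^ j = ∑_{ζ ^ δ' = 1} (ζ x) ^ j` (sum over the `δ'` roots of unity `exp(2 π i t /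
δ')`, `t < δ'`).
So the families `(Q ^ δ, ..., Q ^ δ [δ times], γ'_i)` and `(ζ Q ^ δ, γ_i ^ δ)` have the same
power sums. `mult_eq` at
`x = Q ^ δ`: on the left the multiplicity is `≥ δ`. On the right it is `1`: `γ_i ^ δ = Q ^ δ`
would give `γ_i = ζ Q` with
`ζ ^ δ = 1` and the product `∏ (1 - γ_i / (ζ Q)) = 0`, but it is `H Q / Q ^ s ≠ 0`. So `δ ≤ 1`.
Use `Fin (δ + (n1 + d))` with `Fin.append`/`Fin.addCases` (or generalise `mult_eq` to finite
types in this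
file by `Fintype.equivFin`).
-/

set_option autoImplicit false

namespace Pool.Agent.CvZ

private theorem root_sum_Delta1 {m : ℕ} {z : ℂ} (hz : IsPrimitiveRoot z m) (j : ℕ) :
    ∑ t : Fin m, (z ^ (t : ℕ)) ^ j = if m ∣ j then (m : ℂ) else 0 := by
  have h1 : ∀ t : Fin m, (z ^ (t : ℕ)) ^ j = (z ^ j) ^ (t : ℕ) := fun t => by
    rw [← pow_mul, ← pow_mul, mul_comm]
  rw [Finset.sum_congr rfl fun t _ => h1 t, Fin.sum_univ_eq_sum_range (fun t => (z ^ j) ^ t) m]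
  split_ifs with h
  · rw [(hz.pow_eq_one_iff_dvd j).2 h]; simp
  · have h2 : z ^ j ≠ 1 := fun h3 => h ((hz.pow_eq_one_iff_dvd j).1 h3)
    rw [geom_sum_eq h2, ← pow_mul, mul_comm, pow_mul, hz.pow_eq_one, one_pow, sub_self,
      zero_div]

private theorem app_sum_Delta1 {m k : ℕ} (f : Fin m → ℂ) (g : Fin k → ℂ) (j : ℕ) :
    ∑ i, Fin.append f g i ^ j = ∑ i, f i ^ j + ∑ i, g i ^ j := by
  rw [Fin.sum_univ_add]
  simp only [Fin.append_left, Fin.append_right]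

theorem delta_one {Q n1 d s H H' : ℕ} (hQ : 2 ≤ Q) (hd : 1 ≤ d) (hH : 0 < H) (hH' : 0 < H')
    {N a a' : ℕ → ℕ} {δ δ' s' : ℕ} (h : ZDd Q n1 d s H N a δ)
    (h' : ZDd (Q ^ δ) n1 d s' H' (fun j => N (δ * j)) a' δ') : δ = 1 := by
  have hδ : 1 ≤ δ := h.2.1
  have hδ' : 1 ≤ δ' := h'.2.1
  have hQ1 : 1 ≤ Q := by omega
  have hQ0 : (Q : ℂ) ≠ 0 := by
    have : Q ≠ 0 := by omega
    exact_mod_cast this
  obtain ⟨γ, e, -, hN, hC⟩ := pol hQ1 hd h
  obtain ⟨γ', e', -, hN', -⟩ := pol (Nat.one_le_pow _ _ (by omega)) hd h'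
  obtain ⟨z, hz⟩ : ∃ z : ℂ, IsPrimitiveRoot z δ' :=
    ⟨_, Complex.isPrimitiveRoot_exp δ' (by omega)⟩
  have key : ∀ j, 1 ≤ j →
      ∑ i, (Fin.append (fun _ : Fin δ => (Q : ℂ) ^ δ) γ') i ^ j =
        ∑ i, (Fin.append (fun t : Fin δ' => z ^ (t : ℕ) * (Q : ℂ) ^ δ)
          (fun i => γ i ^ δ)) i ^ j := by
    intro j hj
    rw [app_sum_Delta1, app_sum_Delta1]
    have h1 := hN (δ * j) (Nat.mul_pos hδ hj)
    rw [if_pos (Dvd.intro j rfl)] at h1
    have h2 := hN' j hj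
    rw [h1] at h2
    have h3 : ∑ t : Fin δ', (z ^ (t : ℕ) * (Q : ℂ) ^ δ) ^ j =
        if δ' ∣ j then (δ' : ℂ) * ((Q : ℂ) ^ δ) ^ j else 0 := by
      simp only [mul_pow]
      rw [← Finset.sum_mul]
      have := root_sum_Delta1 hz j
      rw [this]
      split_ifs <;> simp
    rw [h3]
    simp only [Finset.sum_const, Finset.card_univ, Fintype.card_fin, nsmul_eq_mul]
    have h4 : ∀ i, (γ i ^ δ) ^ j = γ i ^ (δ * j) := fun i => (pow_mul _ _ _).symm
    simp only [h4]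
    push_cast at h2
    rw [pow_mul] at h2
    linear_combination h2
  have hx : (Q : ℂ) ^ δ ≠ 0 := pow_ne_zero _ hQ0
  have hm := mult_eq _ _ key ((Q : ℂ) ^ δ) hx
  have hl : δ ≤ Nat.card {i : Fin (δ + (n1 + d)) //
      Fin.append (fun _ : Fin δ => (Q : ℂ) ^ δ) γ' i = (Q : ℂ) ^ δ} := by
    have := Nat.card_le_card_of_injective
      (fun t : Fin δ => (⟨Fin.castAdd (n1 + d) t, by rw [Fin.append_left]⟩ :
        {i : Fin (δ + (n1 + d)) //
          Fin.append (fun _ : Fin δ => (Q : ℂ) ^ δ) γ' i = (Q : ℂ) ^ δ}))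
      (fun t u htu => Fin.castAdd_injective _ _ (congrArg Subtype.val htu))
    simpa using this
  have hno : ∀ i, γ i ^ δ ≠ (Q : ℂ) ^ δ := by
    intro i hi
    have hζ : (γ i / Q) ^ δ = 1 := by rw [div_pow, hi, div_self hx]
    have h1 := hC _ hζ
    have hγ : γ i ≠ 0 := by
      intro h0
      rw [h0, zero_pow (by omega)] at hi
      exact hx hi.symm
    have h2 : ∏ k, (1 - γ k / (γ i / Q * Q)) = 0 := by
      refine Finset.prod_eq_zero (Finset.mem_univ i) ?_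
      rw [div_mul_cancel₀ _ hQ0, div_self hγ, sub_self]
    rw [h2] at h1
    have hH0 : (H : ℂ) ≠ 0 := by exact_mod_cast hH.ne'
    exact (div_ne_zero (mul_ne_zero hH0 hQ0) (pow_ne_zero _ hQ0)) h1.symm
  have hr : Nat.card {i : Fin (δ' + (n1 + d)) //
      Fin.append (fun t : Fin δ' => z ^ (t : ℕ) * (Q : ℂ) ^ δ) (fun i => γ i ^ δ) i =
        (Q : ℂ) ^ δ} ≤ 1 := by
    have : ∀ i : Fin (δ' + (n1 + d)),
        Fin.append (fun t : Fin δ' => z ^ (t : ℕ) * (Q : ℂ) ^ δ) (fun i => γ i ^ δ) i =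
          (Q : ℂ) ^ δ → (i : ℕ) = 0 := by
      intro i
      refine Fin.addCases (fun t => ?_) (fun k => ?_) i
      · rw [Fin.append_left]
        intro h1
        have h2 : z ^ (t : ℕ) = 1 := mul_right_cancel₀ hx (by rw [h1, one_mul])
        have h3 := Nat.eq_zero_of_dvd_of_lt ((hz.pow_eq_one_iff_dvd _).1 h2) t.2
        simpa using h3
      · rw [Fin.append_right]
        intro h1
        exact absurd h1 (hno k)
    have hs : Subsingleton {i : Fin (δ' + (n1 + d)) //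
      Fin.append (fun t : Fin δ' => z ^ (t : ℕ) * (Q : ℂ) ^ δ) (fun i => γ i ^ δ) i =
        (Q : ℂ) ^ δ} :=
      ⟨fun x y => Subtype.ext (Fin.ext ((this _ x.2).trans (this _ y.2).symm))⟩
    exact Finite.card_le_one_iff_subsingleton.2 hs
  omega

end Pool.Agent.CvZ
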