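import Pool.Agent.CvZ.Defs

/-!
# Package CvZ-Dir: simultaneous approximation (Dirichlet, page 7.6)

`near_re`: for complex `g_i` (`i < b`) there is `m ≥ 1` with `(3/4) ‖g_i‖ ^ m ≤ (g_i ^ m).re` for
all `i`.
Let `u_i = g_i / ‖g_i‖` (or `1` if `g_i = 0`), `‖u_i‖ = 1`. The sequence `m ↦ (u_i ^ m)_i` lies
in a compact set, so two
terms `m1 < m2` are closer than `1/4` (pigeonhole, or `tendsto_subseq_of_bounded` and Cauchy); `m
= m2 - m1`,
`‖u_i ^ m - 1‖ ≤ 1/4`, `(u_i ^ m).re ≥ 3/4`. See `Pool/Agent/HyZ/Near.lean`.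
-/

set_option autoImplicit false

namespace Pool.Agent.CvZ

theorem near_re {b : ℕ} (g : Fin b → ℂ) : ∃ m, 1 ≤ m ∧ ∀ i, 3 / 4 * ‖g i‖ ^ m ≤ (g i ^ m).re := by
  have hu : ∀ i, ∃ u : ℂ, ‖u‖ = 1 ∧ g i = (‖g i‖ : ℂ) * u := by
    intro i
    by_cases h : g i = 0
    · exact ⟨1, norm_one, by rw [h]; simp⟩
    · have h1 : (‖g i‖ : ℂ) ≠ 0 := by
        simpa using h
      refine ⟨g i / (‖g i‖ : ℂ), ?_, (mul_div_cancel₀ _ h1).symm⟩
      rw [norm_div, Complex.norm_real, norm_norm, div_self]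
      simpa using h
  choose u hu1 hu2 using hu
  have hb : ∀ m : ℕ, (fun i => u i ^ m) ∈ Metric.closedBall (0 : Fin b → ℂ) 1 := by
    intro m
    rw [mem_closedBall_zero_iff, pi_norm_le_iff_of_nonneg zero_le_one]
    intro i
    rw [norm_pow, hu1, one_pow]
  obtain ⟨a, -, φ, hφ, ha⟩ := tendsto_subseq_of_bounded
    (Metric.isBounded_closedBall (x := (0 : Fin b → ℂ)) (r := 1)) hb
  obtain ⟨N, hN⟩ := Metric.cauchySeq_iff.1 ha.cauchySeq (1 / 4) (by norm_num)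
  have h1 := hN (N + 1) (Nat.le_succ N) N le_rfl
  have hlt : φ N < φ (N + 1) := hφ (Nat.lt_succ_self N)
  refine ⟨φ (N + 1) - φ N, by omega, fun i => ?_⟩
  set m := φ (N + 1) - φ N with hm
  have h2 : ‖u i ^ m - 1‖ < 1 / 4 := by
    have h3 : dist (u i ^ φ (N + 1)) (u i ^ φ N) < 1 / 4 :=
      lt_of_le_of_lt (dist_le_pi_dist (fun i => u i ^ φ (N + 1)) (fun i => u i ^ φ N) i) h1
    have h4 : u i ^ φ (N + 1) - u i ^ φ N = u i ^ φ N * (u i ^ m - 1) := by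
      rw [mul_sub, mul_one, ← pow_add, hm, Nat.add_sub_cancel' hlt.le]
    rw [dist_eq_norm, h4, norm_mul, norm_pow, hu1, one_pow, one_mul] at h3
    exact h3
  have h5 : 3 / 4 ≤ (u i ^ m).re := by
    have h6 := Complex.abs_re_le_norm (u i ^ m - 1)
    have h7 := neg_abs_le (u i ^ m - 1).re
    rw [Complex.sub_re, Complex.one_re] at h6 h7
    linarith
  have h8 : (g i ^ m).re = ‖g i‖ ^ m * (u i ^ m).re := by
    conv_lhs => rw [hu2 i]
    rw [mul_pow, ← Complex.ofReal_pow, Complex.re_ofReal_mul]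
  rw [h8, mul_comm]
  exact mul_le_mul_of_nonneg_left h5 (by positivity)

end Pool.Agent.CvZ
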