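import Pool.Agent.CvZ.Pol

/-!
# Package CvZ-Log: the numbers of points are power sums (page 7.2)

`npts`: `N j = (if δ ∣ j then δ Q ^ j else 0) - ∑ γ_i ^ j` for `j ≥ 1`.

Put `N'_j = [δ ∣ j] δ Q ^ j - ∑ γ_i ^ j`. Power series over `ℂ`: `Z = ∑ a_n T ^ n`, `F = ∏ (1 -
γ_i T)`,
`(1 - (Q T) ^ δ) Z = F` (`hF`, `fc`, `fc_big`). With `D = T d/dT` (`PowerSeries.derivative...`,
or work with the sequences
`n ↦ n c_n` and Cauchy products): `D F = -F ∑_{j ≥ 1} (∑_i γ_i ^ j) T ^ j` (induction on the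
number of factors:
`D (1 - γ T) = -γ T = -(1 - γ T) ∑_{j ≥ 1} γ ^ j T ^ j`), `D (1 - (Q T) ^ δ) = -δ (Q T) ^ δ = -(1
- (Q T) ^ δ) ∑_{j ≥ 1, δ ∣ j} δ (Q T) ^ j`.
So `(1 - (QT) ^ δ) D Z = D F - Z D (1 - (QT) ^ δ) = (1 - (QT) ^ δ) Z ∑_{j ≥ 1} N'_j T ^ j`;
cancel the unit
`1 - (QT) ^ δ`: `n a_n = ∑_{j=1}^n N'_j a_(n-j)`. Since `a_0 = 1`, this recursion determines the
`N'_j` (strong induction on
`j`), and the `N_j` satisfy the same recursion. The file `Pool/Agent/HyZ/Ser.lean` has a calculus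
of such
recursions (`IsNw`, `nw_mul`, `nw_uniq`, ...): see whether it can be used directly.
-/

set_option autoImplicit false

namespace Pool.Agent.CvZ

open Polynomial

/-- the Euler operator -/
private noncomputable def E_Log (f : PowerSeries ℂ) : PowerSeries ℂ :=
  PowerSeries.mk fun n => (n : ℂ) * PowerSeries.coeff n f

private theorem E_mul_Log (f g : PowerSeries ℂ) : E_Log (f * g) = E_Log f * g + f * E_Log g := by
  ext n
  rw [map_add, PowerSeries.coeff_mul, PowerSeries.coeff_mul, ← Finset.sum_add_distrib]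
  simp only [E_Log, PowerSeries.coeff_mk]
  rw [PowerSeries.coeff_mul, Finset.mul_sum]
  refine Finset.sum_congr rfl fun x hx => ?_
  have hx2 : x.1 + x.2 = n := Finset.HasAntidiagonal.mem_antidiagonal.mp hx
  rw [← hx2]
  push_cast
  ring

private theorem E_one_Log : E_Log 1 = 0 := by
  ext n
  rw [E_Log, PowerSeries.coeff_mk, PowerSeries.coeff_one]
  split_ifs with h
  · simp [h]
  · simp

private theorem E_prod_Log {ι : Type} (t : Finset ι) (f g : ι → PowerSeries ℂ)
    (h : ∀ i ∈ t, E_Log (f i) = g i * f i) :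
    E_Log (∏ i ∈ t, f i) = (∑ i ∈ t, g i) * ∏ i ∈ t, f i := by
  classical
  induction t using Finset.induction_on with
  | empty => simp [E_one_Log]
  | insert i t hi ih =>
    rw [Finset.prod_insert hi, Finset.sum_insert hi, E_mul_Log, h i (Finset.mem_insert_self i t),
      ih fun j hj => h j (Finset.mem_insert_of_mem hj)]
    ring

/-- the series of the sums -/
private noncomputable def S_Log (s : ℕ → ℂ) : PowerSeries ℂ := PowerSeries.mk fun j => if j = 0 then 0 else s j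

private theorem lin_Log (c : ℂ) (δ : ℕ) (hδ : 1 ≤ δ) :
    E_Log (1 - PowerSeries.C (c ^ δ) * PowerSeries.X ^ δ) =
      -S_Log (fun j => if δ ∣ j then δ * c ^ j else 0) *
        (1 - PowerSeries.C (c ^ δ) * PowerSeries.X ^ δ) := by
  ext n
  rw [neg_mul, mul_sub, mul_one, map_neg, map_sub, ← mul_assoc,
    mul_comm (S_Log _) (PowerSeries.C _), mul_assoc, PowerSeries.coeff_C_mul,
    PowerSeries.coeff_mul_X_pow', E_Log, PowerSeries.coeff_mk, map_sub, PowerSeries.coeff_C_mul,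
    PowerSeries.coeff_X_pow, PowerSeries.coeff_one]
  simp only [S_Log, PowerSeries.coeff_mk]
  by_cases h0 : n = 0
  · subst h0
    have h1 : ¬ δ ≤ 0 := by omega
    simp [h1]
  · rw [if_neg h0, if_neg h0]
    by_cases h1 : δ ≤ n
    · rw [if_pos h1]
      by_cases h2 : n = δ
      · subst h2
        simp
      · have h3 : n - δ ≠ 0 := by omega
        rw [if_neg h2, if_neg h3]
        by_cases h4 : δ ∣ n
        · have h5 : δ ∣ n - δ := Nat.dvd_sub h4 (dvd_refl δ)
          rw [if_pos h4, if_pos h5]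
          have h6 : c ^ n = c ^ δ * c ^ (n - δ) := by
            rw [← pow_add]
            congr 1
            omega
          rw [h6]
          ring
        · have h5 : ¬ δ ∣ n - δ := by
            intro h
            apply h4
            have h6 := Dvd.dvd.add h (dvd_refl δ)
            rwa [Nat.sub_add_cancel h1] at h6
          rw [if_neg h4, if_neg h5]
          ring
    · have h2 : n ≠ δ := by omega
      have h3 : ¬ δ ∣ n := fun h => h1 (Nat.le_of_dvd (by omega) h)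
      rw [if_neg h1, if_neg h2, if_neg h3]
      ring

theorem npts {Q n1 d s H : ℕ} (hQ : 1 ≤ Q) (hd : 1 ≤ d) {N a : ℕ → ℕ} {δ : ℕ}
    (h : ZDd Q n1 d s H N a δ) {γ : Fin (n1 + d) → ℂ}
    (hF : ∏ i, (1 - C (γ i) * X) =
      ∑ n ∈ Finset.range (n1 + d + 1), C ((fc Q δ a n : ℤ) : ℂ) * X ^ n) {j : ℕ} (hj : 1 ≤ j) :
    (N j : ℂ) = (if δ ∣ j then (δ : ℂ) * Q ^ j else 0) - ∑ i, γ i ^ j := by
  have hbig := fun n => fc_big (n := n) hQ h
  obtain ⟨h0, h1, h2, h3, -⟩ := h
  have hδ : δ ≤ d := Nat.le_of_dvd hd h2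
  -- the series of `a`
  set A : PowerSeries ℂ := PowerSeries.mk fun n => (a n : ℂ) with hA
  set G : PowerSeries ℂ := 1 - PowerSeries.C ((Q : ℂ) ^ δ) * PowerSeries.X ^ δ with hG
  set F : PowerSeries ℂ := ∏ i, (1 - PowerSeries.C (γ i ^ 1) * PowerSeries.X ^ 1) with hFdef
  have e1 : E_Log A = S_Log (fun j => (N j : ℂ)) * A := by
    ext n
    rw [PowerSeries.coeff_mul, Finset.Nat.sum_antidiagonal_eq_sum_range_succ
      (fun x y => PowerSeries.coeff x (S_Log fun j => (N j : ℂ)) * PowerSeries.coeff y A),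
      Finset.sum_range_succ', E_Log, PowerSeries.coeff_mk]
    simp only [S_Log, hA, PowerSeries.coeff_mk]
    rw [if_pos trivial, zero_mul, add_zero]
    have h4 := h3 n
    have h5 : ((n * a n : ℕ) : ℂ) = ((∑ j ∈ Finset.Icc 1 n, N j * a (n - j) : ℕ) : ℂ) := by
      rw [h4]
    push_cast at h5
    rw [h5]
    have h6 : ∀ f : ℕ → ℂ, ∑ j ∈ Finset.Icc 1 n, f j = ∑ j ∈ Finset.range n, f (j + 1) := by
      intro f
      rw [Finset.range_eq_Ico, Finset.sum_Ico_add' f 0 n 1]
      refine Finset.sum_congr ?_ fun _ _ => rfl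
      ext x
      simp only [Finset.mem_Icc, Finset.mem_Ico]
      omega
    rw [h6]
    refine Finset.sum_congr rfl fun x _ => ?_
    rw [if_neg (Nat.succ_ne_zero x)]
  have e2 : E_Log G = -S_Log (fun j => if δ ∣ j then (δ : ℂ) * (Q : ℂ) ^ j else 0) * G :=
    lin_Log (Q : ℂ) δ h1
  have e3 : E_Log F = (∑ i, -S_Log (fun j => γ i ^ j)) * F := by
    refine E_prod_Log _ _ _ fun i _ => ?_
    rw [lin_Log (γ i) 1 le_rfl]
    congr 2
    ext n
    simp [S_Log]
  have e4 : F = A * G := by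
    have h4 : F = ((∏ i, (1 - C (γ i) * X) : ℂ[X]) : PowerSeries ℂ) := by
      rw [hFdef, ← Polynomial.coeToPowerSeries.ringHom_apply, map_prod]
      refine Finset.prod_congr rfl fun i _ => ?_
      rw [map_sub, map_one, map_mul, Polynomial.coeToPowerSeries.ringHom_apply,
        Polynomial.coeToPowerSeries.ringHom_apply, Polynomial.coe_C, Polynomial.coe_X, pow_one,
        pow_one]
    rw [h4, hF]
    ext n
    rw [Polynomial.coeff_coe, Polynomial.finsetSum_coeff, hG, mul_sub, mul_one, map_sub,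
      ← mul_assoc, mul_comm A, mul_assoc, PowerSeries.coeff_C_mul, PowerSeries.coeff_mul_X_pow']
    simp only [hA, PowerSeries.coeff_mk, Polynomial.coeff_C_mul, Polynomial.coeff_X_pow, mul_ite,
      mul_one, mul_zero]
    rw [Finset.sum_ite_eq]
    have h5 : ((fc Q δ a n : ℤ) : ℂ) =
        (a n : ℂ) - if δ ≤ n then (Q : ℂ) ^ δ * (a (n - δ) : ℂ) else 0 := by
      unfold fc
      split_ifs
      · push_cast
        ring
      · push_cast
        ring
    split_ifs with h6 h7 h7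
    · rw [h5, if_pos h7]
    · rw [h5, if_neg h7]
    · rw [Finset.mem_range, not_lt] at h6
      rw [hbig n (by omega), if_pos h7, Int.cast_zero] at h5
      exact h5
    · rw [Finset.mem_range, not_lt] at h6
      omega
  have e5 : F ≠ 0 := by
    intro h4
    have h5 := congrArg PowerSeries.constantCoeff h4
    rw [hFdef, map_prod, map_zero] at h5
    have h6 : ∀ i ∈ (Finset.univ : Finset (Fin (n1 + d))), PowerSeries.constantCoeff
        (1 - PowerSeries.C (γ i ^ 1) * PowerSeries.X ^ 1 : PowerSeries ℂ) = 1 := by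
      intro i _
      simp
    rw [Finset.prod_congr rfl h6, Finset.prod_const_one] at h5
    exact one_ne_zero h5
  have e6 : S_Log (fun j => (N j : ℂ)) -
      S_Log (fun j => if δ ∣ j then (δ : ℂ) * (Q : ℂ) ^ j else 0) =
      ∑ i, -S_Log (fun j => γ i ^ j) := by
    refine mul_right_cancel₀ e5 ?_
    rw [← e3, e4, E_mul_Log, e1, e2]
    ring
  have e7 := congrArg (PowerSeries.coeff j) e6
  rw [map_sub, map_sum] at e7
  have h8 : j ≠ 0 := by omega
  simp only [S_Log, map_neg, PowerSeries.coeff_mk, if_neg h8, Finset.sum_neg_distrib] at e7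
  linear_combination e7

/-- summary of `fpol`, `npts`, `fval` -/
theorem pol {Q n1 d s H : ℕ} (hQ : 1 ≤ Q) (hd : 1 ≤ d) {N a : ℕ → ℕ} {δ : ℕ}
    (h : ZDd Q n1 d s H N a δ) :
    ∃ (γ : Fin (n1 + d) → ℂ) (e : Fin (n1 + d) → ℤ),
      (Unq.pol e).map (Int.castRingHom ℂ) = ∏ i, (X - C (γ i)) ∧
      (∀ j, 1 ≤ j → (N j : ℂ) = (if δ ∣ j then (δ : ℂ) * Q ^ j else 0) - ∑ i, γ i ^ j) ∧
      ∀ ζ : ℂ, ζ ^ δ = 1 → ∏ i, (1 - γ i / (ζ * Q)) = H * Q / Q ^ s := by
  obtain ⟨γ, e, h1, h2⟩ := fpol hQ hd h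
  refine ⟨γ, e, h1, fun j hj => npts hQ hd h h2 hj, fun ζ hζ => ?_⟩
  rw [← fval hQ hd h ζ hζ]
  have h3 := congrArg (Polynomial.eval (1 / (ζ * Q))) h2
  rw [Polynomial.eval_prod, Polynomial.eval_finsetSum] at h3
  simp only [eval_sub, eval_one, eval_mul, eval_C, eval_X, eval_pow] at h3
  rw [← h3]
  refine Finset.prod_congr rfl fun i _ => ?_
  ring

end Pool.Agent.CvZ
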