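import Pool.Agent.CvZ.Defs
import Pool.Agent.Unq.PolU

/-!
# Package CvZ-Pol: the numerator of the zeta function is a polynomial (page 7.2, 7.3)

Let `a`, `δ` be as in `ZDd`, `b = n1 + d`; `fc n = a_n - Q ^ δ a_(n-δ)` (the second term only for
`δ ≤ n`), an integer.
`fc_zero`: `fc 0 = 1` (`δ ≥ 1`). `fc_big`: `fc n = 0` for `n1 + δ ≤ n` (`δ ∣ n ↔ δ ∣ n - δ`;
multiply by `Q ^ s`, `Q ≥ 1`).
`fpol`: there is an integer vector `e` with `e i = fc (i + 1)`; with the roots `γ` of `Unq.pol e`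
(`Unq.exists_roots`):
`∏ (1 - γ_i T) = ∑_{n ≤ b} fc n T ^ n` (reverse polynomial: evaluate `Unq.pol e = ∏ (X - γ_i)` at
`1/t`, `t ≠ 0`, multiply by
`t ^ b`; two polynomials which agree at all `t ≠ 0`, or `Polynomial.reverse`).

`fval`: for `ζ ^ δ = 1`: `∏ (1 - γ_i / (ζ Q)) = H Q / Q ^ s`. Let `n0 = δ * n1` (or any multiple
of `δ` which is `≥ n1`), `C = H Q / Q ^ s`,
`a_n = C Q ^ n` for `n ≥ n1`, `δ ∣ n`. `∑_{n} fc n t ^ n` (`n ≤ b`, hence also `n < n0 + δ` if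
this is larger: take the sum over
`n < L` for any `L > b`, `L ≥ n0 + δ`) `= ∑_{n < L} a_n t ^ n - (Q t) ^ δ ∑_{n < L - δ} a_n t ^
n`; for `L = n0 + δ` large with
`t = 1/(ζ Q)`, `(Q t) ^ δ = 1`, this is `∑_{L - δ ≤ n < L} a_n t ^ n = a_n0 t ^ n0 = C (Q t) ^ n0
= C` (the only multiple of `δ`
in the range is `n0`).
-/

set_option autoImplicit false

namespace Pool.Agent.CvZ

open Polynomial

/-- the coefficients of `(1 - (Q T) ^ δ) ∑ a_n T ^ n` -/
def fc (Q δ : ℕ) (a : ℕ → ℕ) (n : ℕ) : ℤ := a n - if δ ≤ n then (Q : ℤ) ^ δ * a (n - δ) else 0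

theorem fc_zero {Q n1 d s H : ℕ} {N a : ℕ → ℕ} {δ : ℕ} (h : ZDd Q n1 d s H N a δ) :
    fc Q δ a 0 = 1 := by
  obtain ⟨h0, h1, -⟩ := h
  unfold fc
  rw [if_neg (by omega), h0]
  rfl

theorem fc_big {Q n1 d s H : ℕ} (hQ : 1 ≤ Q) {N a : ℕ → ℕ} {δ : ℕ} (h : ZDd Q n1 d s H N a δ)
    {n : ℕ} (hn : n1 + δ ≤ n) : fc Q δ a n = 0 := by
  obtain ⟨-, h1, -, -, h4⟩ := h
  have e1 := h4 n (by omega)
  have e2 := h4 (n - δ) (by omega)
  have hQs : 0 < Q ^ s := Nat.pow_pos hQ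
  have key : a n = Q ^ δ * a (n - δ) := by
    refine Nat.eq_of_mul_eq_mul_right hQs ?_
    rw [mul_assoc, e1, e2]
    by_cases hd : δ ∣ n
    · have hd' : δ ∣ n - δ := Nat.dvd_sub hd (dvd_refl δ)
      rw [if_pos hd, if_pos hd', mul_left_comm, ← pow_add, show δ + (n - δ + 1) = n + 1 by omega]
    · have hd' : ¬ δ ∣ n - δ := by
        intro h
        apply hd
        have h5 := Dvd.dvd.add h (dvd_refl δ)
        rwa [Nat.sub_add_cancel (by omega)] at h5
      rw [if_neg hd, if_neg hd', mul_zero]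
  unfold fc
  rw [if_pos (by omega), key]
  push_cast
  ring

theorem fpol {Q n1 d s H : ℕ} (hQ : 1 ≤ Q) (hd : 1 ≤ d) {N a : ℕ → ℕ} {δ : ℕ}
    (h : ZDd Q n1 d s H N a δ) :
    ∃ (γ : Fin (n1 + d) → ℂ) (e : Fin (n1 + d) → ℤ),
      (Unq.pol e).map (Int.castRingHom ℂ) = ∏ i, (X - C (γ i)) ∧
      ∏ i, (1 - C (γ i) * X) =
        ∑ n ∈ Finset.range (n1 + d + 1), C ((fc Q δ a n : ℤ) : ℂ) * X ^ n := by
  have h0 := fc_zero h
  obtain ⟨γ, hγ⟩ := Unq.exists_roots (fun i : Fin (n1 + d) => fc Q δ a (i + 1))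
  refine ⟨γ, _, hγ, Polynomial.funext fun t => ?_⟩
  rw [eval_prod, eval_finsetSum, Finset.sum_range_succ']
  by_cases ht : t = 0
  · subst ht
    simp [h0]
  · have h1 := congrArg (eval (1 / t)) hγ
    rw [eval_prod] at h1
    have h2 : ∏ i, eval t (1 - C (γ i) * X) = t ^ (n1 + d) * ∏ i, eval (1 / t) (X - C (γ i)) := by
      have h3 : ∀ i, eval t (1 - C (γ i) * X) = t * eval (1 / t) (X - C (γ i)) := by
        intro i
        simp only [eval_sub, eval_one, eval_mul, eval_C, eval_X]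
        rw [mul_sub, mul_one_div_cancel ht, mul_comm t]
      rw [Finset.prod_congr rfl fun i _ => h3 i, Finset.prod_mul_distrib, Finset.prod_const,
        Finset.card_univ, Fintype.card_fin]
    rw [h2, ← h1]
    unfold Unq.pol
    rw [Polynomial.map_add, Polynomial.map_pow, Polynomial.map_X, Polynomial.map_sum, eval_add,
      eval_pow, eval_X, eval_finsetSum, mul_add, ← mul_pow, mul_one_div_cancel ht, one_pow,
      Finset.mul_sum, add_comm]
    congr 1
    · rw [← Fin.sum_univ_eq_sum_range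
        (fun i => eval t (C ((fc Q δ a (i + 1) : ℤ) : ℂ) * X ^ (i + 1))) (n1 + d)]
      refine Finset.sum_congr rfl fun i _ => ?_
      have hi := i.2
      simp only [Polynomial.map_mul, Polynomial.map_C, Polynomial.map_pow, Polynomial.map_X,
        eval_mul, eval_C, eval_pow, eval_X]
      rw [eq_intCast, mul_left_comm]
      congr 1
      have h4 : t ^ (n1 + d) = t ^ ((i : ℕ) + 1) * t ^ (n1 + d - 1 - (i : ℕ)) := by
        rw [← pow_add]
        congr 1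
        omega
      rw [h4, mul_assoc, ← mul_pow, mul_one_div_cancel ht, one_pow, mul_one]
    · simp [h0]

theorem fval {Q n1 d s H : ℕ} (hQ : 1 ≤ Q) (hd : 1 ≤ d) {N a : ℕ → ℕ} {δ : ℕ}
    (h : ZDd Q n1 d s H N a δ) (ζ : ℂ) (hζ : ζ ^ δ = 1) :
    ∑ n ∈ Finset.range (n1 + d + 1), ((fc Q δ a n : ℤ) : ℂ) * (1 / (ζ * Q)) ^ n =
      H * Q / Q ^ s := by
  have hbig := fun n => fc_big (n := n) hQ h
  obtain ⟨-, h1, h2, -, h4⟩ := h
  have hδ : δ ≤ d := Nat.le_of_dvd hd h2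
  have hQ0 : (Q : ℂ) ≠ 0 := by
    have : Q ≠ 0 := by omega
    exact_mod_cast this
  have hζ0 : ζ ≠ 0 := by
    rintro rfl
    rw [zero_pow (by omega)] at hζ
    exact zero_ne_one hζ
  set t : ℂ := 1 / (ζ * Q) with ht
  set n0 : ℕ := δ * (n1 + d + 1) with hn0
  have hn0' : n1 + d + 1 ≤ n0 := Nat.le_mul_of_pos_left _ (by omega)
  have e1 : ∑ n ∈ Finset.range (n1 + d + 1), ((fc Q δ a n : ℤ) : ℂ) * t ^ n =
      ∑ n ∈ Finset.range (n0 + δ), ((fc Q δ a n : ℤ) : ℂ) * t ^ n := by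
    refine Finset.sum_subset (Finset.range_mono (by omega)) fun n _ hn => ?_
    rw [Finset.mem_range, not_lt] at hn
    rw [hbig n (by omega), Int.cast_zero, zero_mul]
  have e2 : ∀ n, ((fc Q δ a n : ℤ) : ℂ) * t ^ n =
      (a n : ℂ) * t ^ n - (if δ ≤ n then (Q : ℂ) ^ δ * a (n - δ) else 0) * t ^ n := by
    intro n
    unfold fc
    rw [← sub_mul]
    congr 1
    split_ifs
    · push_cast
      ring
    · push_cast
      ring
  have hQt : ((Q : ℂ) * t) ^ δ = 1 := by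
    have h5 : (Q : ℂ) * t = 1 / ζ := by
      rw [ht]
      field_simp
    rw [h5, div_pow, one_pow, hζ, div_one]
  have e3 : ∑ n ∈ Finset.range (n0 + δ),
      (if δ ≤ n then (Q : ℂ) ^ δ * a (n - δ) else 0) * t ^ n =
      ∑ n ∈ Finset.range n0, (a n : ℂ) * t ^ n := by
    rw [add_comm n0, Finset.sum_range_add, Finset.sum_eq_zero (s := Finset.range δ) (fun n hn => by
      rw [if_neg (by rw [Finset.mem_range] at hn; omega), zero_mul]), zero_add]
    refine Finset.sum_congr rfl fun n _ => ?_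
    rw [if_pos (Nat.le_add_right _ _), Nat.add_sub_cancel_left, pow_add]
    calc (Q : ℂ) ^ δ * a n * (t ^ δ * t ^ n) = ((Q : ℂ) * t) ^ δ * (a n * t ^ n) := by
          rw [mul_pow]
          ring
      _ = a n * t ^ n := by rw [hQt, one_mul]
  have e4 : ∑ x ∈ Finset.range δ, (a (n0 + x) : ℂ) * t ^ (n0 + x) = (a n0 : ℂ) * t ^ n0 := by
    rw [Finset.sum_eq_single 0]
    · rfl
    · intro x hx hx0
      have h5 := h4 (n0 + x) (by omega)
      rw [if_neg] at h5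
      · have h6 : a (n0 + x) = 0 := by
          rcases Nat.mul_eq_zero.1 h5 with h6 | h6
          · exact h6
          · exact absurd h6 (Nat.pow_pos hQ).ne'
        rw [h6, Nat.cast_zero, zero_mul]
      · intro h6
        rw [Finset.mem_range] at hx
        have h7 : δ ∣ x := (Nat.dvd_add_right (Dvd.intro _ rfl)).1 h6
        exact absurd (Nat.le_of_dvd (by omega) h7) (by omega)
    · intro h5
      exact absurd (Finset.mem_range.2 (by omega)) h5
  have e5 : (a n0 : ℂ) * (Q : ℂ) ^ s = H * (Q : ℂ) ^ (n0 + 1) := by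
    have h5 := h4 n0 (by omega)
    rw [if_pos (Dvd.intro _ rfl)] at h5
    exact_mod_cast h5
  have e6 : ((Q : ℂ) * t) ^ n0 = 1 := by
    rw [hn0, pow_mul, hQt, one_pow]
  rw [e1, Finset.sum_congr rfl fun n _ => e2 n, Finset.sum_sub_distrib, e3,
    Finset.sum_range_add, add_sub_cancel_left, e4, eq_div_iff (pow_ne_zero s hQ0)]
  calc (a n0 : ℂ) * t ^ n0 * (Q : ℂ) ^ s = ((a n0 : ℂ) * (Q : ℂ) ^ s) * t ^ n0 := by ring
    _ = H * Q * ((Q : ℂ) * t) ^ n0 := by
        rw [e5, mul_pow, pow_succ]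
        ring
    _ = H * Q := by rw [e6, mul_one]

end Pool.Agent.CvZ
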